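import Pool.Agent.R184CA.Uncond

/-! MP_02927d_an, Q1: yes, for every space `U` with a normalized unconditional basis. -/

namespace Pool.Agent.Results.MP_02927d_an.Unconditional

open Pool.Agent.R184CA

universe u

/-- Let `U` be a Banach space with a normalized unconditional basis `(b s)`. The coordinatewise
product `m (∑ x_s b_s) (∑ y_s b_s) = ∑ x_s y_s b_s` exists on `U`, and the unitization `U ⊕ 𝕜` is
a Calkin algebra. -/
theorem result {𝕜 : Type} [RCLike 𝕜] {U : Type u} [NormedAddCommGroup U] [NormedSpace 𝕜 U]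
    [CompleteSpace U] (b : UnconditionalSchauderBasis ℕ 𝕜 U) (hb : ∀ s, ‖b s‖ = 1) :
    ∃ m : U → U → U,
      (∀ x y, HasSum (fun s => (b.coord s x * b.coord s y) • b s) (m x y)) ∧
      IsCalkinMul 𝕜 (U × 𝕜) (unitMul m) :=
  uncond_calkin b hb

end Pool.Agent.Results.MP_02927d_an.Unconditional
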